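import Mathlib

namespace Pool.Agent.Results.MP_35e3b8_an.NoApprox

open BoundedContinuousFunction

/-- The Lipschitz constant `L(f)` (infinite if `f` is not Lipschitz). -/
noncomputable def lip {M : Type} [MetricSpace M] (f : M → ℝ) : ENNReal :=
  ⨅ (K : NNReal) (_ : LipschitzWith K f), (K : ENNReal)

/-- The action `(g f)(x) = f(g⁻¹ x) - f(g⁻¹ o)` on functions. -/
def act {M G : Type} [Group G] [MulAction G M] (o : M) (g : G) (f : M → ℝ) : M → ℝ :=
  fun x => f (g⁻¹ • x) - f (g⁻¹ • o)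

/-- bounded sequences -/
def X (_K : ℝ) : Type := ℕ →ᵇ ℝ

/-- underlying sequence -/
def ev {K : ℝ} (c : X K) : ℕ →ᵇ ℝ := c

/-- the embedding defining the metric -/
noncomputable def emb (K : ℝ) (c : X K) : (ℕ →ᵇ ℝ) × (ℕ × ℕ →ᵇ ℝ) :=
  (ev c, K • ((ev c).compContinuous ⟨Prod.fst, continuous_fst⟩ -
    (ev c).compContinuous ⟨Prod.snd, continuous_snd⟩))

noncomputable instance (K : ℝ) : MetricSpace (X K) :=
  MetricSpace.induced (emb K) (fun _ _ h => congrArg Prod.fst h) inferInstance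

theorem dist_le {K : ℝ} (c d : X K) (r : ℝ) (hr : 0 ≤ r) : dist c d ≤ r ↔
    (∀ n, |ev c n - ev d n| ≤ r) ∧
      ∀ n m, |K * ((ev c n - ev d n) - (ev c m - ev d m))| ≤ r := by
  change dist (emb K c) (emb K d) ≤ r ↔ _
  rw [Prod.dist_eq, max_le_iff, BoundedContinuousFunction.dist_le hr,
    BoundedContinuousFunction.dist_le hr]
  refine and_congr Iff.rfl ?_
  rw [Prod.forall]
  refine forall₂_congr fun n m => ?_
  rw [Real.dist_eq]
  simp only [emb, BoundedContinuousFunction.smul_apply, BoundedContinuousFunction.sub_apply,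
    compContinuous_apply, ContinuousMap.coe_mk, smul_eq_mul]
  rw [show K * (ev c n - ev c m) - K * (ev d n - ev d m) =
    K * ((ev c n - ev d n) - (ev c m - ev d m)) by ring]

/-- the group -/
def Gr (K : ℝ) : Subgroup (Equiv.Perm (X K)) where
  carrier := {g | ∃ σ : Equiv.Perm ℕ, ∀ c d n, ev (g c) n - ev (g d) n = ev c (σ n) - ev d (σ n)}
  one_mem' := ⟨1, fun _ _ _ => rfl⟩
  mul_mem' := by
    rintro g h ⟨σ, hσ⟩ ⟨τ, hτ⟩
    exact ⟨τ * σ, fun c d n => by simp [hσ, hτ]⟩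
  inv_mem' := by
    rintro g ⟨σ, hσ⟩
    refine ⟨σ⁻¹, fun c d n => ?_⟩
    have := hσ (g⁻¹ c) (g⁻¹ d) (σ⁻¹ n)
    simpa using this.symm

theorem le_act {K : ℝ} (g : Gr K) (c d : X K) : dist (g • c) (g • d) ≤ dist c d := by
  obtain ⟨σ, hσ⟩ := g.2
  obtain ⟨h1, h2⟩ := (dist_le c d _ dist_nonneg).1 le_rfl
  refine (dist_le _ _ _ dist_nonneg).2 ⟨fun n => ?_, fun n m => ?_⟩
  · change |ev (g.1 c) n - ev (g.1 d) n| ≤ _
    rw [hσ]; exact h1 _
  · change |K * ((ev (g.1 c) n - ev (g.1 d) n) - (ev (g.1 c) m - ev (g.1 d) m))| ≤ _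
    rw [hσ, hσ]; exact h2 _ _

/-- translation -/
noncomputable def tr {K : ℝ} (t : ℕ →ᵇ ℝ) : Gr K :=
  ⟨Equiv.addRight (G := ℕ →ᵇ ℝ) t, 1, fun c d n => by
    change (ev c + t) n - (ev d + t) n = ev c n - ev d n
    simp⟩

/-- composition with a permutation -/
noncomputable def cp (σ : Equiv.Perm ℕ) (c : ℕ →ᵇ ℝ) : ℕ →ᵇ ℝ :=
  c.compContinuous ⟨σ, continuous_of_discreteTopology⟩

/-- permutation of coordinates -/
noncomputable def pm {K : ℝ} (σ : Equiv.Perm ℕ) : Gr K :=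
  ⟨⟨fun c => cp σ c, fun c => cp σ⁻¹ c, fun c => by
      refine BoundedContinuousFunction.ext fun n => ?_
      simp [cp],
    fun c => by
      refine BoundedContinuousFunction.ext fun n => ?_
      simp [cp]⟩, σ, fun _ _ _ => rfl⟩

/-- indicator -/
noncomputable def ind (p : ℕ → Prop) [DecidablePred p] : ℕ →ᵇ ℝ :=
  ofNormedAddCommGroupDiscrete (fun n => if p n then 1 else 0) 1 fun n => by
    split_ifs <;> simp

theorem ind_apply (p : ℕ → Prop) [DecidablePred p] (n : ℕ) :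
    ind p n = if p n then 1 else 0 := rfl

theorem perm (p q : ℕ → Prop) [DecidablePred p] [DecidablePred q] [Infinite {n // p n}]
    [Infinite {n // q n}] [Infinite {n // ¬p n}] [Infinite {n // ¬q n}] :
    ∃ σ : Equiv.Perm ℕ, cp σ (ind q) = ind p := by
  obtain ⟨e⟩ : Nonempty ({n // p n} ≃ {n // q n}) := nonempty_equiv_of_countable
  obtain ⟨f⟩ : Nonempty ({n // ¬p n} ≃ {n // ¬q n}) := nonempty_equiv_of_countable
  refine ⟨Equiv.subtypeCongr e f, BoundedContinuousFunction.ext fun n => ?_⟩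
  change ind q (Equiv.subtypeCongr e f n) = _
  rw [ind_apply, ind_apply]
  by_cases h : p n
  · have : q (Equiv.subtypeCongr e f n) := by
      simpa [Equiv.subtypeCongr, Equiv.sumCompl_symm_apply_of_pos h] using (e ⟨n, h⟩).2
    simp [h, this]
  · have : ¬q (Equiv.subtypeCongr e f n) := by
      simpa [Equiv.subtypeCongr, Equiv.sumCompl_symm_apply_of_neg h] using (f ⟨n, h⟩).2
    simp [h, this]

theorem inf (p : ℕ → Prop) (r : ℕ) (h : ∀ k, p (3 * k + r)) : Infinite {n // p n} :=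
  Infinite.of_injective (fun k => ⟨3 * k + r, h k⟩) fun a b hab => by
    have := congrArg Subtype.val hab
    simp only at this
    omega

theorem kill (φ : (ℕ →ᵇ ℝ) → ℝ) (ha : ∀ c t, φ (c + t) = φ c + φ t)
    (hp : ∀ σ c, φ (cp σ c) = φ c) : φ 1 = 0 := by
  haveI := inf (fun n => n % 3 = 0) 0 (by omega)
  haveI := inf (fun n => n % 3 = 1) 1 (by omega)
  haveI := inf (fun n => n % 3 = 2) 2 (by omega)
  haveI := inf (fun n => n % 3 ≤ 1) 1 (by omega)
  haveI := inf (fun n => ¬n % 3 = 0) 1 (by omega)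
  haveI := inf (fun n => ¬n % 3 = 1) 0 (by omega)
  haveI := inf (fun n => ¬n % 3 = 2) 0 (by omega)
  haveI := inf (fun n => ¬n % 3 ≤ 1) 2 (by omega)
  obtain ⟨σ1, h1⟩ := perm (fun n => n % 3 = 1) (fun n => n % 3 = 0)
  obtain ⟨σ2, h2⟩ := perm (fun n => n % 3 = 2) (fun n => n % 3 = 0)
  obtain ⟨σ3, h3⟩ := perm (fun n => n % 3 ≤ 1) (fun n => n % 3 = 0)
  have e1 : ind (fun n => n % 3 ≤ 1) = ind (fun n => n % 3 = 0) + ind (fun n => n % 3 = 1) := by
    refine BoundedContinuousFunction.ext fun n => ?_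
    simp only [BoundedContinuousFunction.add_apply, ind_apply]
    split_ifs <;> first | omega | simp
  have e2 : (1 : ℕ →ᵇ ℝ) = ind (fun n => n % 3 ≤ 1) + ind (fun n => n % 3 = 2) := by
    refine BoundedContinuousFunction.ext fun n => ?_
    simp only [BoundedContinuousFunction.add_apply, ind_apply, coe_one, Pi.one_apply]
    split_ifs <;> first | omega | simp
  have a1 := hp σ1 (ind fun n => n % 3 = 0)
  have a2 := hp σ2 (ind fun n => n % 3 = 0)
  have a3 := hp σ3 (ind fun n => n % 3 = 0)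
  rw [h1] at a1
  rw [h2] at a2
  rw [h3] at a3
  have a4 := congrArg φ e1
  rw [ha] at a4
  rw [e2, ha]
  linarith

theorem result (ε : NNReal) (hε : 0 < ε) :
    ∃ (M : Type) (_ : MetricSpace M) (o : M) (G : Type) (_ : Group G) (_ : MulAction G M),
      (∀ g : G, Isometry fun x : M => g • x) ∧
      ∃ f : M → ℝ, f o = 0 ∧ lip f = 1 ∧ (∀ g : G, lip (act o g f - f) ≤ ε) ∧
        ∀ h : M → ℝ, h o = 0 → (∀ g : G, act o g h = h) → 1 ≤ lip (f - h) := by
  have hε' : (0 : ℝ) < ε := hε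
  let o : X (1 / ε) := (0 : ℕ →ᵇ ℝ)
  let u : X (1 / ε) := (1 : ℕ →ᵇ ℝ)
  have hd : dist u o ≤ 1 := (dist_le _ _ _ zero_le_one).2 ⟨fun n => by simp [ev, u, o],
    fun n m => by simp [ev, u, o]⟩
  have low : ∀ k : X (1 / ε) → ℝ, k u - k o = 1 → 1 ≤ lip k := fun k hk =>
    le_iInf₂ fun K hK => by
      have h1 := hK.dist_le_mul u o
      rw [Real.dist_eq, hk, abs_one] at h1
      have : (1 : ℝ) ≤ K := h1.trans (mul_le_of_le_one_right K.2 hd)
      exact_mod_cast this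
  refine ⟨X (1 / ε), inferInstance, o, Gr (1 / ε), inferInstance, inferInstance,
    fun g => Isometry.of_dist_eq fun c d => le_antisymm (le_act g c d) ?_,
    fun c => ev c 0, rfl, le_antisymm ?_ (low _ (by simp [ev, u, o])), fun g => ?_,
    fun h h0 hg => low _ ?_⟩
  · simpa using le_act g⁻¹ (g • c) (g • d)
  · refine iInf₂_le_of_le 1 (LipschitzWith.of_dist_le_mul fun c d => ?_) le_rfl
    rw [NNReal.coe_one, one_mul]
    exact ((dist_le c d _ dist_nonneg).1 le_rfl).1 0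
  · refine iInf₂_le_of_le ε (LipschitzWith.of_dist_le_mul fun c d => ?_) le_rfl
    obtain ⟨σ, hσ⟩ := (g⁻¹).2
    have h1 := ((dist_le c d _ dist_nonneg).1 le_rfl).2 (σ 0) 0
    rw [← hσ, abs_mul, abs_of_pos (by positivity), div_mul_eq_mul_div, one_mul, div_le_iff₀' hε']
      at h1
    rw [Real.dist_eq]
    refine le_of_eq_of_le (congrArg _ ?_) h1
    change ev ((g⁻¹).1 c) 0 - ev ((g⁻¹).1 o) 0 - ev c 0 -
      (ev ((g⁻¹).1 d) 0 - ev ((g⁻¹).1 o) 0 - ev d 0) = _
    ring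
  · have hg' : ∀ (g : Gr (1 / ε)) c, h (g • c) - h (g • o) = h c := fun g c => by
      simpa [act] using congrFun (hg g⁻¹) c
    have : h u = 0 := kill h (fun c t => by
      have := hg' (tr t) c
      change h (c + t : ℕ →ᵇ ℝ) - h (0 + t : ℕ →ᵇ ℝ) = _ at this
      rw [zero_add] at this
      linarith) fun σ c => by
      have := hg' (pm σ) c
      change h (cp σ c) - h o = _ at this
      linarith
    simp [this, h0, ev, u, o]

end Pool.Agent.Results.MP_35e3b8_an.NoApprox
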